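import Pool.Agent.H5.Mce47b3Proof

set_option autoImplicit false

namespace Pool.Agent.Results.MP_ce47b3_al.NonFreeRetract

open Pool.Agent.H5.Mce47b3

universe u

/-- Over every principal ideal domain `k` there is a variety of linear `k`-algebras defined by
multilinear identities, an algebra `A` that is free in it, and a retract `B` of `A` that is not
free in it. -/
theorem result (k : Type u) [CommRing k] [IsDomain k] [IsPrincipalIdealRing k] :
    ∃ E : Set (FreeNonUnitalNonAssocAlgebra k ℕ), (∀ f ∈ E, IsMultilinear f) ∧
      ∃ (A : Type u) (_ : NonUnitalNonAssocRing A) (_ : Module k A) (_ : IsScalarTower k A A)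
        (_ : SMulCommClass k A A),
        IsVFree E A ∧ ∃ B : NonUnitalSubalgebra k A, IsRetract B ∧ ¬ IsVFree E B :=
  ⟨Ids k, ids_ml, A2 k, inferInstance, inferInstance, inferInstance, inferInstance,
    ⟨ULift.{u} Bool, FV.gen, FV.isFreeOn⟩, BB k, isRetract, not_free⟩

end Pool.Agent.Results.MP_ce47b3_al.NonFreeRetract
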